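import Pool.Agent.R689.LechMumford

namespace Pool.Agent.Results.MP_57f84f_al.DeepIdeals

open IsLocalRing Filter R689LM PowerSeries
open scoped ENNReal Nat Topology

section expandSec

variable {R : Type*} [CommRing R]

/-- Assemble a power series from its components modulo `j`. -/
noncomputable def G (j : ℕ) (hj : j ≠ 0) (g : Fin j → R⟦X⟧) : R⟦X⟧ :=
  ∑ r : Fin j, X ^ (r : ℕ) * expand j hj (g r)

theorem coeff_G (j : ℕ) (hj : j ≠ 0) (g : Fin j → R⟦X⟧) (m : ℕ) :
    coeff m (G j hj g) = coeff (m / j) (g ⟨m % j, Nat.mod_lt _ (Nat.pos_of_ne_zero hj)⟩) := by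
  unfold G
  rw [map_sum]
  rw [Finset.sum_eq_single (⟨m % j, Nat.mod_lt _ (Nat.pos_of_ne_zero hj)⟩ : Fin j)]
  · simp only
    rw [coeff_X_pow_mul', if_pos (Nat.mod_le m j), coeff_expand]
    have h1 : m - m % j = j * (m / j) := by
      have := Nat.div_add_mod m j
      omega
    rw [h1, if_pos (Dvd.intro _ rfl), Nat.mul_div_cancel_left _ (Nat.pos_of_ne_zero hj)]
  · intro r _ hr
    rw [coeff_X_pow_mul']
    split_ifs with h
    · rw [coeff_expand, if_neg]
      rintro ⟨q, hq⟩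
      apply hr
      apply Fin.ext
      simp only
      have h2 : m = r + j * q := by omega
      rw [h2, Nat.add_mul_mod_self_left, Nat.mod_eq_of_lt r.2]
    · rfl
  · intro h
    exact absurd (Finset.mem_univ _) h

/-- The components modulo `j` give an `R`-linear isomorphism. -/
noncomputable def E (j : ℕ) (hj : j ≠ 0) : R⟦X⟧ ≃ₗ[R] (Fin j → R⟦X⟧) where
  toFun f r := PowerSeries.mk fun n => coeff (n * j + r) f
  invFun := G j hj
  map_add' f g := by
    funext r; ext n; simp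
  map_smul' a f := by
    funext r; ext n; simp
  left_inv f := by
    ext m
    rw [coeff_G, coeff_mk]
    simp only
    congr 1
    rw [Nat.div_add_mod' m j]
  right_inv g := by
    funext r; ext n
    rw [coeff_mk, coeff_G]
    have h1 : (n * j + r) / j = n := by
      rw [mul_comm, Nat.mul_add_div (Nat.pos_of_ne_zero hj), Nat.div_eq_of_lt r.2, add_zero]
    have h2 : (n * j + r) % j = r := by
      rw [mul_comm, Nat.mul_add_mod, Nat.mod_eq_of_lt r.2]
    rw [h1]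
    congr 2
    exact Fin.ext h2

theorem E_symm_apply (j : ℕ) (hj : j ≠ 0) (g : Fin j → R⟦X⟧) : (E j hj).symm g = G j hj g := rfl

theorem expand_mul_G (j : ℕ) (hj : j ≠ 0) (h : R⟦X⟧) (g : Fin j → R⟦X⟧) :
    expand j hj h * G j hj g = G j hj (fun r => h * g r) := by
  unfold G
  rw [Finset.mul_sum]
  refine Finset.sum_congr rfl fun r _ => ?_
  rw [map_mul]; ring

theorem E_expand_mul (j : ℕ) (hj : j ≠ 0) (h f : R⟦X⟧) (r : Fin j) :
    E j hj (expand j hj h * f) r = h * E j hj f r := by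
  have h1 : f = G j hj (E j hj f) := ((E j hj).symm_apply_apply f).symm
  conv_lhs => rw [h1, expand_mul_G, ← E_symm_apply, LinearEquiv.apply_symm_apply]

/-- The extension `φ_j(K) S`. -/
noncomputable def ext (j : ℕ) (hj : j ≠ 0) (K : Ideal R⟦X⟧) : Ideal R⟦X⟧ :=
  K.map (expand j hj : R⟦X⟧ →ₐ[R] R⟦X⟧).toRingHom

theorem mem_ext_iff (j : ℕ) (hj : j ≠ 0) (K : Ideal R⟦X⟧) (f : R⟦X⟧) :
    f ∈ ext j hj K ↔ ∀ r, E j hj f r ∈ K := by
  constructor
  · intro hf
    unfold ext Ideal.map at hf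
    refine Submodule.span_induction ?_ ?_ ?_ ?_ hf
    · rintro _ ⟨g, hg, rfl⟩ r
      have := E_expand_mul j hj g 1 r
      rw [mul_one] at this
      change E j hj (expand j hj g) r ∈ K
      rw [this]
      exact Ideal.mul_mem_right _ _ hg
    · intro r
      rw [map_zero]; exact K.zero_mem
    · intro x y _ _ hx hy r
      rw [map_add]; exact K.add_mem (hx r) (hy r)
    · intro a x _ hx r
      rw [smul_eq_mul]
      have h1 : x = G j hj (E j hj x) := ((E j hj).symm_apply_apply x).symm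
      have h2 : a * x = ∑ s : Fin j, expand j hj (E j hj x s) * (X ^ (s : ℕ) * a) := by
        conv_lhs => rw [h1]
        unfold G
        rw [Finset.mul_sum]
        refine Finset.sum_congr rfl fun r _ => ?_
        ring
      rw [h2, map_sum, Finset.sum_apply]
      refine Ideal.sum_mem _ fun s _ => ?_
      rw [E_expand_mul]
      exact Ideal.mul_mem_right _ _ (hx s)
  · intro h
    have h1 : f = G j hj (E j hj f) := ((E j hj).symm_apply_apply f).symm
    rw [h1]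
    unfold G
    refine Ideal.sum_mem _ fun s _ => Ideal.mul_mem_left _ _ ?_
    exact Ideal.mem_map_of_mem _ (h s)

/-- The map `S → (S/K)^j`, `f ↦ (components of f)`. -/
noncomputable def quotMap (j : ℕ) (hj : j ≠ 0) (K : Ideal R⟦X⟧) :
    R⟦X⟧ →ₗ[R] (Fin j → R⟦X⟧ ⧸ K) :=
  LinearMap.pi fun r => (K.mkQ.restrictScalars R).comp
    ((LinearMap.proj r).comp (E j hj).toLinearMap)

theorem quotMap_apply (j : ℕ) (hj : j ≠ 0) (K : Ideal R⟦X⟧) (f : R⟦X⟧) (r : Fin j) :
    quotMap j hj K f r = Submodule.Quotient.mk (E j hj f r) := rfl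

theorem quotMap_ker (j : ℕ) (hj : j ≠ 0) (K : Ideal R⟦X⟧) :
    (ext j hj K).restrictScalars R = LinearMap.ker (quotMap j hj K) := by
  ext f
  rw [Submodule.restrictScalars_mem, mem_ext_iff, LinearMap.mem_ker]
  constructor
  · intro h
    funext r
    rw [quotMap_apply, Pi.zero_apply, Submodule.Quotient.mk_eq_zero]
    exact h r
  · intro h r
    have := congrFun h r
    rwa [quotMap_apply, Pi.zero_apply, Submodule.Quotient.mk_eq_zero] at this

theorem quotMap_surj (j : ℕ) (hj : j ≠ 0) (K : Ideal R⟦X⟧) :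
    Function.Surjective (quotMap j hj K) := by
  intro g
  choose g' hg' using fun r => Submodule.Quotient.mk_surjective K (g r)
  refine ⟨(E j hj).symm g', ?_⟩
  funext r
  rw [quotMap_apply, LinearEquiv.apply_symm_apply, hg']

/-- `S/φ_j(K)S ≅ (S/K)^j` over `R`. -/
noncomputable def quotE (j : ℕ) (hj : j ≠ 0) (K : Ideal R⟦X⟧) :
    (R⟦X⟧ ⧸ ext j hj K) ≃ₗ[R] (Fin j → R⟦X⟧ ⧸ K) :=
  (Submodule.Quotient.restrictScalarsEquiv R (ext j hj K)).symm.trans <|
  (Submodule.quotEquivOfEq _ _ (quotMap_ker j hj K)).trans <|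
  LinearMap.quotKerEquivOfSurjective (quotMap j hj K) (quotMap_surj j hj K)

variable [IsLocalRing R]

theorem hsurj (b : R⟦X⟧) : ∃ a : R, b - algebraMap R R⟦X⟧ a ∈ maximalIdeal R⟦X⟧ := by
  refine ⟨constantCoeff b, ?_⟩
  rw [mem_maximalIdeal, mem_nonunits_iff, PowerSeries.isUnit_iff_constantCoeff]
  simp

theorem len_ext (j : ℕ) (hj : j ≠ 0) (K : Ideal R⟦X⟧) :
    len R⟦X⟧ (ext j hj K) = j * len R⟦X⟧ K := by
  unfold len
  rw [← length_restrict (A := R) hsurj, ← length_restrict (A := R) hsurj (R⟦X⟧ ⧸ K),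
    (quotE j hj K).length_eq, Module.length_pi_of_fintype]
  simp

omit [IsLocalRing R] in
theorem ext_pow (j : ℕ) (hj : j ≠ 0) (K : Ideal R⟦X⟧) (k : ℕ) :
    ext j hj (K ^ k) = ext j hj K ^ k := by
  unfold ext
  rw [Ideal.map_pow]

theorem mult_ext (j : ℕ) (hj : j ≠ 0) (K : Ideal R⟦X⟧) :
    mult R⟦X⟧ (ext j hj K) = j * mult R⟦X⟧ K := by
  unfold mult
  rw [← ENNReal.limsup_const_mul_of_ne_top (ENNReal.natCast_ne_top j)]
  congr 1
  funext k
  rw [← ext_pow, len_ext]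
  rw [← mul_div_assoc]
  congr 1
  ring

omit [IsLocalRing R] in
theorem mult_anti {I J : Ideal R⟦X⟧} (h : J ≤ I) : mult R⟦X⟧ I ≤ mult R⟦X⟧ J := by
  unfold mult
  refine limsup_le_limsup (Eventually.of_forall fun k => ?_)
  exact ENNReal.div_le_div_right (mul_le_mul_right (len_mono (Ideal.pow_right_mono h k)) _) _

theorem mem_max_iff (f : R⟦X⟧) : f ∈ maximalIdeal R⟦X⟧ ↔ constantCoeff f ∈ maximalIdeal R := by
  rw [mem_maximalIdeal, mem_nonunits_iff, PowerSeries.isUnit_iff_constantCoeff, mem_maximalIdeal,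
    mem_nonunits_iff]

theorem ext_radical (j : ℕ) (hj : j ≠ 0) (K : Ideal R⟦X⟧) (hK : K.radical = maximalIdeal R⟦X⟧) :
    (ext j hj K).radical = maximalIdeal R⟦X⟧ := by
  apply le_antisymm
  · have hp : (maximalIdeal R⟦X⟧).IsPrime := (maximalIdeal.isMaximal _).isPrime
    rw [hp.radical_le_iff]
    unfold ext
    rw [Ideal.map_le_iff_le_comap]
    intro g hg
    have : g ∈ maximalIdeal R⟦X⟧ := hK ▸ Ideal.le_radical hg
    rw [Ideal.mem_comap]
    change expand j hj g ∈ _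
    rw [mem_max_iff] at this ⊢
    rwa [constantCoeff_expand]
  · intro f hf
    -- `f = C a + X g`
    have h1 : f = C (constantCoeff f) + X * PowerSeries.mk (fun n => coeff (n + 1) f) := by
      have := PowerSeries.eq_X_mul_shift_add_const f
      rw [add_comm]; exact this
    rw [h1]
    rw [mem_max_iff] at hf
    refine Ideal.add_mem _ ?_ (Ideal.mul_mem_right _ _ ?_)
    · have h2 : C (constantCoeff f) ∈ K.radical := by
        rw [hK, mem_max_iff]; simpa using hf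
      obtain ⟨n, hn⟩ := h2
      refine ⟨n, ?_⟩
      have := Ideal.mem_map_of_mem ((expand j hj : R⟦X⟧ →ₐ[R] R⟦X⟧).toRingHom) hn
      change expand j hj (C (constantCoeff f) ^ n) ∈ _ at this
      rwa [map_pow, expand_C] at this
    · have h2 : (X : R⟦X⟧) ∈ K.radical := by
        rw [hK, mem_max_iff]; simp
      obtain ⟨n, hn⟩ := h2
      refine ⟨j * n, ?_⟩
      have := Ideal.mem_map_of_mem ((expand j hj : R⟦X⟧ →ₐ[R] R⟦X⟧).toRingHom) hn
      change expand j hj (X ^ n) ∈ _ at this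
      rwa [map_pow, expand_X, ← pow_mul] at this

variable [IsNoetherianRing R]

theorem ratio_le_deep (I : Ideal R⟦X⟧) (hI : I.radical = maximalIdeal R⟦X⟧) (N : ℕ) :
    ratio R⟦X⟧ I ≤ LMdeep R⟦X⟧ N := by
  set c : ℝ≥0∞ := ((kdim R⟦X⟧)! : ℝ≥0∞) with hc
  have hc0 : c ≠ 0 := by rw [hc]; exact_mod_cast (Nat.factorial_pos _).ne'
  have hct : c ≠ ⊤ := by rw [hc]; exact ENNReal.natCast_ne_top _
  set C0 : ℝ≥0∞ := len R⟦X⟧ (maximalIdeal R⟦X⟧ ^ N) with hC0
  have hrad : maximalIdeal R⟦X⟧ ≤ (maximalIdeal R⟦X⟧ ^ N).radical := by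
    rcases Nat.eq_zero_or_pos N with h | h
    · subst h
      rw [pow_zero, Ideal.one_eq_top, Ideal.radical_top]; exact le_top
    · rw [Ideal.radical_pow _ h.ne']; exact Ideal.le_radical
  have hC0t : C0 ≠ ⊤ := len_ne_top hrad
  have hIt : I ≠ ⊤ := by
    rintro rfl
    rw [Ideal.radical_top] at hI
    exact (maximalIdeal.isMaximal R⟦X⟧).ne_top hI.symm
  have hl0 : len R⟦X⟧ I ≠ 0 := len_pos hIt
  have hlt : len R⟦X⟧ I ≠ ⊤ := len_ne_top hI.ge
  -- the approximating bound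
  have key : ∀ j : ℕ, mult R⟦X⟧ I / (c * (len R⟦X⟧ I + C0 / ((j + 1 : ℕ) : ℝ≥0∞)))
      ≤ LMdeep R⟦X⟧ N := by
    intro j
    have hj : j + 1 ≠ 0 := Nat.succ_ne_zero j
    have hj0 : ((j + 1 : ℕ) : ℝ≥0∞) ≠ 0 := by exact_mod_cast hj
    have hjt : ((j + 1 : ℕ) : ℝ≥0∞) ≠ ⊤ := ENNReal.natCast_ne_top _
    set J : Ideal R⟦X⟧ := ext (j + 1) hj I ⊓ maximalIdeal R⟦X⟧ ^ N with hJ
    have hJrad : J.radical = maximalIdeal R⟦X⟧ := by
      rw [hJ, Ideal.radical_inf, ext_radical _ hj I hI]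
      exact inf_eq_left.mpr hrad
    have hJle : J ≤ maximalIdeal R⟦X⟧ ^ N := inf_le_right
    have h1 : ratio R⟦X⟧ J ≤ LMdeep R⟦X⟧ N := by
      unfold LMdeep
      exact le_iSup_of_le J (le_iSup_of_le hJrad (le_iSup_of_le hJle le_rfl))
    refine le_trans ?_ h1
    have hm : ((j + 1 : ℕ) : ℝ≥0∞) * mult R⟦X⟧ I ≤ mult R⟦X⟧ J := by
      rw [← mult_ext (j + 1) hj]; exact mult_anti inf_le_left
    have hlen : len R⟦X⟧ J ≤ ((j + 1 : ℕ) : ℝ≥0∞) * len R⟦X⟧ I + C0 := by
      refine (len_inf_le _ _).trans ?_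
      rw [len_ext]
    unfold ratio
    calc mult R⟦X⟧ I / (c * (len R⟦X⟧ I + C0 / ((j + 1 : ℕ) : ℝ≥0∞)))
        = (((j + 1 : ℕ) : ℝ≥0∞) * mult R⟦X⟧ I) /
            (((j + 1 : ℕ) : ℝ≥0∞) * (c * (len R⟦X⟧ I + C0 / ((j + 1 : ℕ) : ℝ≥0∞)))) := by
          rw [ENNReal.mul_div_mul_left _ _ hj0 hjt]
      _ = (((j + 1 : ℕ) : ℝ≥0∞) * mult R⟦X⟧ I) /
            (c * (((j + 1 : ℕ) : ℝ≥0∞) * len R⟦X⟧ I + C0)) := by
          congr 1
          rw [mul_left_comm, mul_add, ENNReal.mul_div_cancel hj0 hjt]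
      _ ≤ mult R⟦X⟧ J / (c * len R⟦X⟧ J) :=
          ENNReal.div_le_div hm (mul_le_mul_right hlen _)
  -- pass to the limit
  have hlim : Tendsto (fun j : ℕ => mult R⟦X⟧ I / (c * (len R⟦X⟧ I + C0 / ((j + 1 : ℕ) : ℝ≥0∞))))
      atTop (𝓝 (mult R⟦X⟧ I / (c * (len R⟦X⟧ I + 0)))) := by
    refine ENNReal.Tendsto.const_div ?_ ?_
    · refine ENNReal.Tendsto.const_mul ?_ (Or.inr hct)
      refine tendsto_const_nhds.add ?_
      have h2 : Tendsto (fun j : ℕ => C0 / ((j : ℕ) : ℝ≥0∞)) atTop (𝓝 0) := by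
        have := ENNReal.Tendsto.const_div (a := C0) ENNReal.tendsto_nat_nhds_top
          (Or.inr hC0t)
        rwa [ENNReal.div_top] at this
      exact h2.comp (tendsto_add_atTop_nat 1)
    · left
      rw [add_zero]
      exact ENNReal.mul_ne_top hct hlt
  rw [add_zero] at hlim
  exact le_of_tendsto' hlim key

theorem deep_eq (N : ℕ) : LMdeep R⟦X⟧ N = LM R⟦X⟧ := by
  apply le_antisymm
  · unfold LMdeep LM
    refine iSup_mono fun I => iSup_mono fun _ => iSup_le fun _ => le_rfl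
  · unfold LM
    refine iSup_le fun I => iSup_le fun hI => ratio_le_deep I hI N

end expandSec

/-- MP_57f84f Q1: for every Noetherian local ring `R`, the Lech–Mumford constant of `R⟦T⟧` is the
limit of the constants `L_N(R)`; in fact `L_N(R) = LM(R⟦T⟧)` for every `N`. -/
theorem result (R : Type*) [CommRing R] [IsNoetherianRing R] [IsLocalRing R] :
    Tendsto (fun N : ℕ => LMdeep R⟦X⟧ N) atTop (𝓝 (LM R⟦X⟧)) ∧
      ∀ N : ℕ, LMdeep R⟦X⟧ N = LM R⟦X⟧ := by
  refine ⟨?_, deep_eq⟩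
  have : (fun N : ℕ => LMdeep R⟦X⟧ N) = fun _ => LM R⟦X⟧ := funext deep_eq
  rw [this]
  exact tendsto_const_nhds

end Pool.Agent.Results.MP_57f84f_al.DeepIdeals
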